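import Pool.Agent.W_4481e3_q87.GoR
import Pool.Agent.W_4481e3_tab.T9

/-!
Tree s13o9, data 5.
-/

namespace Pool.Agent.W_4481e3_rt.s13o9

open Pool.Agent.W_4481e3_q25.EvR

theorem k96 : ckO Pool.Agent.W_4481e3_tab.T9.tab 4372160 6498560 16777216 8388608 11862016 14483456 7 1572864 524288 3670016 524288 515762058 527121295 244478 234306 268407562 268448250 16777216 16777216 14628291 14628291 0x104000c04000c04000c06000c21204000c06000c05000c606000c05000c6306000c04000c606000c04000c63506000c121 = true := by decide +kernel

theorem k98 : ckO Pool.Agent.W_4481e3_tab.T9.tab 4372160 6498560 16777216 8388608 11862016 14483456 6 1572864 524288 3670016 524288 515273102 527355601 244478 468611 268407562 268448250 16777216 16777216 14628291 14628291 0x104000c04000c104000c05000c106000c206000c06000c06000c06000c21212 = true := by decide +kernel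

theorem k100 : ckO Pool.Agent.W_4481e3_tab.T9.tab 4372160 6498560 16777216 8388608 11862016 14483456 1 1572864 524288 3670016 524288 515517580 526418379 488955 468611 268407562 268448250 16777216 16777216 14628291 14628291 0x104000c = true := by decide +kernel

theorem k105 : ckO Pool.Agent.W_4481e3_tab.T9.tab 4372160 6498560 16777216 8388608 11862016 14483456 5 1572864 524288 3670016 524288 516984444 524075327 1955818 1874442 268407562 268448250 16777216 16777216 14628291 14628291 0x103000c03000c203000c03000c03000c04000c2121 = true := by decide +kernel

theorem k110 : ckO Pool.Agent.W_4481e3_tab.T9.tab 4372160 6498560 16777216 8388608 11862016 14483456 16 1572864 524288 3670016 524288 511768002 529698652 3586130 7172260 268435456 268435456 16777216 16777216 14628291 14628291 0x102000c02000c02000c03000c03000c04000c2121203000c03000c103000c03000c104000c05029c205029c05070c105029c05070c121203000c04000c03000c04000c05000c121204000c04000c04000c06000c206000c1204000c04000c05000c06000c105000c06000c132106000c06000c206000c06000c07000c121212105070c05070c205000c05070c206000c106000c2105070c05070c2826c27a06f706000c06000c2829907a10e71206000c06000c06000c2106000c06000c07000c21206000c07000c207000c07000c07000c2107000c07000c07000c212107000c07000c207000c07000cb21b212107000c07000cb21b2b121282ae47a6947121815b97b41a703000c04000c203000c04000c204000c05070c2104000c04000c04000c04000c21204000c04000c05000c05000c21205070c06000c2106000c06000c2bb21212104000c04000c204000c04000cb1b2104000cbb212bb2b1b2104000cb104000cbb212bb2121205070c05070c05070c1205029c05070c105029cb2822a3793fc7bb212824b9799287105070cb2bb21b2bb21281b6c78e24705070c05070c2827ab79ddb706000c06000c1b21b2bb2b1b2182e9479f717b21bb1b2b12180e00783cd72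 = true := by decide +kernel

theorem k112 : ckO Pool.Agent.W_4481e3_tab.T9.tab 4372160 6498560 16777216 8388608 11862016 14483456 5 1572864 524288 3670016 524288 515354132 515354132 7172260 7172260 268435456 268435456 16777216 16777216 14628291 14628291 0x102000c02000c02000c1202000c02000c03000c202000c03000c2121 = true := by decide +kernel

theorem k115 : ckO Pool.Agent.W_4481e3_tab.T9.tab 4372160 6498560 16777216 8388608 11862016 14483456 5 1572864 524288 3670016 524288 522526392 493837352 14344520 14344520 268435456 268435456 16777216 16777216 14628291 14628291 0x100000c00000c01000c201000c02000c21201003c01029c01007c121 = true := by decide +kernel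

theorem k117 : ckO Pool.Agent.W_4481e3_tab.T9.tab 4372160 6498560 16777216 8388608 11862016 14483456 9 1572864 524288 3670016 524288 493837352 508181872 14344520 28689040 268435456 268435456 16777216 16777216 14628291 14628291 0x100000c00000c00000c00000c00000c02000c12100000c00000c200000c00000c202000c02000c2102000c02000c202000c04000c104000c2121212 = true := by decide +kernel

end Pool.Agent.W_4481e3_rt.s13o9
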